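import Pool.Agent.Lib.MMT.Zero
import Pool.Agent.Lib.MP_0dc93f_an.X.Fin
import Pool.Agent.Lib.MP_0dc93f_an.WGal
import Pool.Agent.Lib.MP_0dc93f_an.WLim
import Pool.Agent.Lib.MP_0dc93f_an.WGlob

namespace Pool.Agent.Results.MP_0dc93f_an.ClassificationExceptHalf

open Pool.Agent.Lib.MMT Pool.Agent.Lib.MMTW

theorem result (α : ℝ) (h1 : α < 1) (h2 : α ≠ 1 / 2) :
    (∀ c : ℤ → ℂ, hsNormSq α c < ⊤ → HasGlobalSol α c) ↔ (α ≤ 0 ∨ 1 / 2 < α) := by
  rcases lt_or_gt_of_ne h2 with h | h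
  · rw [main h]
    exact ⟨Or.inl, fun h' => h'.elim id fun h'' => absurd h'' (by linarith)⟩
  · obtain ⟨κ, k0, k1, he⟩ := Pool.Agent.Lib.MMTX.est_all h h1
    exact ⟨fun _ => .inr h, fun _ => hasGlobal_of_infFam (by linarith) h1.le k0
      (infFam_of_galFam (galFam_of_est h h1 k0 k1 he))⟩

end Pool.Agent.Results.MP_0dc93f_an.ClassificationExceptHalf
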